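import Mathlib

/-!
# Score-based local search for 3-SAT: the formula and the scores of its variables
-/

set_option autoImplicit false

namespace Pool.Agent.V7H96.LS

open Finset

/-- Truth assignments of the variables `0, …, n-1`. -/
abbrev Assign (n : ℕ) := Fin n → Bool

/-- A clause: a finite set of literals; the literal `(v, b)` says that variable `v` has the
value `b`. -/
abbrev Clause (n : ℕ) := Finset (Fin n × Bool)

/-- `σ` makes some literal of `C` true. -/
def Holds {n : ℕ} (σ : Assign n) (C : Clause n) : Prop := ∃ l ∈ C, σ l.1 = l.2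

/-- `σ` satisfies the CNF formula `F` (a finite set of clauses). -/
def Sat {n : ℕ} (F : Finset (Clause n)) (σ : Assign n) : Prop := ∀ C ∈ F, Holds σ C

/-- `σ` with the value of the variable `v` changed. -/
def flipAt {n : ℕ} (σ : Assign n) (v : Fin n) : Assign n := Function.update σ v (!(σ v))

open Classical in
/-- The number of clauses of `F` which the flip of `v` makes false. -/
noncomputable def breaks {n : ℕ} (F : Finset (Clause n)) (σ : Assign n) (v : Fin n) : ℕ :=
  (F.filter fun C => Holds σ C ∧ ¬ Holds (flipAt σ v) C).card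

open Classical in
/-- The number of clauses of `F` which the flip of `v` makes true. -/
noncomputable def makes {n : ℕ} (F : Finset (Clause n)) (σ : Assign n) (v : Fin n) : ℕ :=
  (F.filter fun C => ¬ Holds σ C ∧ Holds (flipAt σ v) C).card

/-- `u` is a worse choice than `v`: its flip breaks more clauses and makes fewer. -/
def Worse {n : ℕ} (F : Finset (Clause n)) (σ : Assign n) (u v : Fin n) : Prop :=
  breaks F σ v < breaks F σ u ∧ makes F σ u < makes F σ v

open Classical in
/-- the violated clauses -/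
noncomputable def viol {n : ℕ} (F : Finset (Clause n)) (σ : Assign n) : Finset (Clause n) :=
  F.filter fun C => ¬ Holds σ C

/-! ### The formula -/

/-- `(∧ s) → i` -/
def horn {n : ℕ} (i : Fin n) (s : Finset (Fin n)) : Clause n :=
  insert (i, true) (s.image fun j => (j, false))

/-- `∨ s` -/
def pos {n : ℕ} (s : Finset (Fin n)) : Clause n := s.image fun j => (j, true)

lemma mem_horn {n : ℕ} {i : Fin n} {s : Finset (Fin n)} {l : Fin n × Bool} :
    l ∈ horn i s ↔ l = (i, true) ∨ (l.1 ∈ s ∧ l.2 = false) := by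
  unfold horn
  rw [mem_insert, mem_image]
  constructor
  · rintro (h | ⟨j, hj, rfl⟩)
    · exact Or.inl h
    · exact Or.inr ⟨hj, rfl⟩
  · rintro (h | ⟨h1, h2⟩)
    · exact Or.inl h
    · exact Or.inr ⟨l.1, h1, by ext <;> simp [h2]⟩

lemma mem_pos {n : ℕ} {s : Finset (Fin n)} {l : Fin n × Bool} :
    l ∈ pos s ↔ l.1 ∈ s ∧ l.2 = true := by
  unfold pos
  rw [mem_image]
  constructor
  · rintro ⟨j, hj, rfl⟩
    exact ⟨hj, rfl⟩
  · rintro ⟨h1, h2⟩
    exact ⟨l.1, h1, by ext <;> simp [h2]⟩

lemma horn_inj {n : ℕ} {i i' : Fin n} {s s' : Finset (Fin n)} (h : horn i s = horn i' s') :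
    i = i' ∧ s = s' := by
  constructor
  · have : ((i, true) : Fin n × Bool) ∈ horn i' s' := h ▸ mem_horn.2 (Or.inl rfl)
    rcases mem_horn.1 this with h1 | h1
    · exact congrArg Prod.fst h1
    · simp at h1
  · ext x
    have h1 : ((x, false) : Fin n × Bool) ∈ horn i s ↔ x ∈ s := by
      rw [mem_horn]; simp
    have h2 : ((x, false) : Fin n × Bool) ∈ horn i' s' ↔ x ∈ s' := by
      rw [mem_horn]; simp
    rw [← h1, ← h2, h]

lemma holds_horn {n : ℕ} {σ : Assign n} {i : Fin n} {s : Finset (Fin n)} :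
    Holds σ (horn i s) ↔ σ i = true ∨ ∃ j ∈ s, σ j = false := by
  unfold Holds
  constructor
  · rintro ⟨l, hl, h⟩
    rcases mem_horn.1 hl with rfl | ⟨h1, h2⟩
    · exact Or.inl h
    · exact Or.inr ⟨l.1, h1, by rw [h, h2]⟩
  · rintro (h | ⟨j, hj, h⟩)
    · exact ⟨(i, true), mem_horn.2 (Or.inl rfl), h⟩
    · exact ⟨(j, false), mem_horn.2 (Or.inr ⟨hj, rfl⟩), h⟩

lemma holds_pos {n : ℕ} {σ : Assign n} {s : Finset (Fin n)} :
    Holds σ (pos s) ↔ ∃ j ∈ s, σ j = true := by
  unfold Holds
  constructor
  · rintro ⟨l, hl, h⟩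
    obtain ⟨h1, h2⟩ := mem_pos.1 hl
    exact ⟨l.1, h1, by rw [h, h2]⟩
  · rintro ⟨j, hj, h⟩
    exact ⟨(j, true), mem_pos.2 ⟨hj, rfl⟩, h⟩

variable {n : ℕ}

/-- the three variables `3 b, 3 b + 1, 3 b + 2` -/
def trip (hn : 6 ≤ n) (b : Bool) : Finset (Fin n) :=
  if b then {⟨0, by omega⟩, ⟨1, by omega⟩, ⟨2, by omega⟩}
  else {⟨3, by omega⟩, ⟨4, by omega⟩, ⟨5, by omega⟩}

lemma trip_card (hn : 6 ≤ n) (b : Bool) : (trip hn b).card = 3 := by
  unfold trip
  cases b
  · simp only [Bool.false_eq_true, if_false]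
    rw [card_insert_of_notMem, card_insert_of_notMem, card_singleton]
    · simp
    · simp
  · simp only [if_true]
    rw [card_insert_of_notMem, card_insert_of_notMem, card_singleton]
    · simp
    · simp

lemma trip_disj (hn : 6 ≤ n) : Disjoint (trip hn true) (trip hn false) := by
  rw [Finset.disjoint_left]
  intro a ha hb
  unfold trip at ha hb
  simp only [if_true, Bool.false_eq_true, if_false, mem_insert, mem_singleton, Fin.ext_iff] at ha hb
  omega

/-- The implications `x_j ∧ x_k → x_i` for all triples, and two positive clauses. -/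
def form (hn : 6 ≤ n) : Finset (Clause n) :=
  ((univ ×ˢ powersetCard 2 univ).filter fun p : Fin n × Finset (Fin n) => p.1 ∉ p.2).image
      (fun p => horn p.1 p.2) ∪
    (univ : Finset Bool).image fun b => pos (trip hn b)

lemma mem_form {hn : 6 ≤ n} {C : Clause n} :
    C ∈ form hn ↔ (∃ i s, s.card = 2 ∧ i ∉ s ∧ C = horn i s) ∨ ∃ b, C = pos (trip hn b) := by
  unfold form
  rw [mem_union, mem_image, mem_image]
  constructor
  · rintro (⟨p, hp, rfl⟩ | ⟨b, -, rfl⟩)
    · rw [mem_filter, mem_product, mem_powersetCard] at hp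
      exact Or.inl ⟨p.1, p.2, hp.1.2.2, hp.2, rfl⟩
    · exact Or.inr ⟨b, rfl⟩
  · rintro (⟨i, s, h1, h2, rfl⟩ | ⟨b, rfl⟩)
    · refine Or.inl ⟨(i, s), ?_, rfl⟩
      rw [mem_filter, mem_product, mem_powersetCard]
      exact ⟨⟨mem_univ _, subset_univ _, h1⟩, h2⟩
    · exact Or.inr ⟨b, mem_univ _, rfl⟩

lemma card_horn {i : Fin n} {s : Finset (Fin n)} (_ : i ∉ s) :
    (horn i s).card = s.card + 1 ∧ (horn i s).image Prod.fst = insert i s := by
  constructor
  · unfold horn
    rw [card_insert_of_notMem, card_image_of_injective]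
    · intro a b hab
      exact congrArg Prod.fst hab
    · simp
  · unfold horn
    rw [image_insert, image_image]
    congr 1
    ext x
    simp

lemma form_three (hn : 6 ≤ n) :
    ∀ C ∈ form hn, C.card = 3 ∧ (C.image Prod.fst).card = 3 := by
  intro C hC
  rcases mem_form.1 hC with ⟨i, s, h1, h2, rfl⟩ | ⟨b, rfl⟩
  · obtain ⟨h3, h4⟩ := card_horn h2
    rw [h4, card_insert_of_notMem h2, h3, h1]
    exact ⟨rfl, rfl⟩
  · have h3 : (pos (trip hn b)).card = 3 := by
      unfold pos
      rw [card_image_of_injective, trip_card]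
      intro a b hab
      exact congrArg Prod.fst hab
    have h4 : (pos (trip hn b)).image Prod.fst = trip hn b := by
      unfold pos
      rw [image_image]
      ext x
      simp
    rw [h4, trip_card]
    exact ⟨h3, rfl⟩

/-- the variables which are true -/
def ones (σ : Assign n) : Finset (Fin n) := univ.filter fun i => σ i = true

/-- the variables which are false -/
def zeros (σ : Assign n) : Finset (Fin n) := univ.filter fun i => σ i = false

lemma mem_ones {σ : Assign n} {i : Fin n} : i ∈ ones σ ↔ σ i = true := by simp [ones]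
lemma mem_zeros {σ : Assign n} {i : Fin n} : i ∈ zeros σ ↔ σ i = false := by simp [zeros]

/-- the number of true variables -/
def wgt (σ : Assign n) : ℕ := (ones σ).card

lemma zeros_eq (σ : Assign n) : zeros σ = (ones σ)ᶜ := by
  ext i
  rw [mem_zeros, mem_compl, mem_ones]
  cases σ i <;> simp

lemma card_zeros (σ : Assign n) : (zeros σ).card = n - wgt σ := by
  rw [zeros_eq, card_compl, Fintype.card_fin]
  rfl

lemma wgt_le (σ : Assign n) : wgt σ ≤ n := by
  have := card_le_univ (ones σ)
  rwa [Fintype.card_fin] at this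

lemma flip_self (σ : Assign n) (v : Fin n) : flipAt σ v v = !(σ v) := by
  unfold flipAt; simp

lemma flip_ne (σ : Assign n) {v x : Fin n} (h : x ≠ v) : flipAt σ v x = σ x := by
  unfold flipAt
  rw [Function.update_of_ne h]

lemma wgt_flip_zero {σ : Assign n} {v : Fin n} (h : σ v = false) :
    wgt (flipAt σ v) = wgt σ + 1 := by
  have : ones (flipAt σ v) = insert v (ones σ) := by
    ext x
    rw [mem_insert, mem_ones, mem_ones]
    by_cases hx : x = v
    · subst hx; simp [flip_self, h]
    · rw [flip_ne σ hx]; simp [hx]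
  unfold wgt
  rw [this, card_insert_of_notMem]
  rw [mem_ones, h]
  simp

lemma wgt_flip_one {σ : Assign n} {v : Fin n} (h : σ v = true) :
    wgt (flipAt σ v) = wgt σ - 1 := by
  have : ones (flipAt σ v) = (ones σ).erase v := by
    ext x
    rw [mem_erase, mem_ones, mem_ones]
    by_cases hx : x = v
    · subst hx; simp [flip_self, h]
    · rw [flip_ne σ hx]; simp [hx]
  unfold wgt
  rw [this, card_erase_of_mem (mem_ones.2 h)]

/-- the only satisfying assignment is all true -/
lemma sat_iff (hn : 6 ≤ n) (σ : Assign n) : Sat (form hn) σ ↔ σ = fun _ => true := by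
  constructor
  · intro h
    obtain ⟨a, ha, ha'⟩ := holds_pos.1 (h _ (mem_form.2 (Or.inr ⟨true, rfl⟩)))
    obtain ⟨b, hb, hb'⟩ := holds_pos.1 (h _ (mem_form.2 (Or.inr ⟨false, rfl⟩)))
    have hab : a ≠ b := by
      rintro rfl
      exact Finset.disjoint_left.1 (trip_disj hn) ha hb
    funext i
    by_contra hi
    have hi' : σ i = false := by simpa using hi
    have hia : i ≠ a := by rintro rfl; rw [hi'] at ha'; exact absurd ha' (by simp)
    have hib : i ≠ b := by rintro rfl; rw [hi'] at hb'; exact absurd hb' (by simp)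
    have h1 := holds_horn.1 (h _ (mem_form.2 (Or.inl ⟨i, {a, b}, card_pair hab,
      by simp [hia, hib], rfl⟩)))
    rcases h1 with h1 | ⟨j, hj, hj'⟩
    · rw [hi'] at h1; exact absurd h1 (by simp)
    · rw [mem_insert, mem_singleton] at hj
      rcases hj with rfl | rfl
      · rw [ha'] at hj'; exact absurd hj' (by simp)
      · rw [hb'] at hj'; exact absurd hj' (by simp)
  · rintro rfl C hC
    rcases mem_form.1 hC with ⟨i, s, h1, h2, rfl⟩ | ⟨b, rfl⟩
    · exact holds_horn.2 (Or.inl rfl)
    · have : (trip hn b).Nonempty := by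
        rw [← card_pos, trip_card]; norm_num
      obtain ⟨j, hj⟩ := this
      exact holds_pos.2 ⟨j, hj, rfl⟩

lemma not_holds_horn {σ : Assign n} {i : Fin n} {s : Finset (Fin n)} :
    ¬ Holds σ (horn i s) ↔ σ i = false ∧ s ⊆ ones σ := by
  rw [holds_horn, not_or]
  constructor
  · rintro ⟨h1, h2⟩
    refine ⟨by simpa using h1, fun j hj => mem_ones.2 ?_⟩
    by_contra h
    exact h2 ⟨j, hj, by simpa using h⟩
  · rintro ⟨h1, h2⟩
    refine ⟨by simp [h1], ?_⟩
    rintro ⟨j, hj, h⟩
    rw [mem_ones.1 (h2 hj)] at h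
    exact absurd h (by simp)

/-! ### The scores -/

/-- flips of false variables break many clauses -/
lemma breaks_zero (hn : 6 ≤ n) {σ : Assign n} {i : Fin n} (hi : σ i = false) :
    (n - wgt σ - 1) * wgt σ ≤ breaks (form hn) σ i := by
  classical
  unfold breaks
  have h1 : ((zeros σ).erase i ×ˢ ones σ).card = (n - wgt σ - 1) * wgt σ := by
    rw [card_product, card_erase_of_mem (mem_zeros.2 hi), card_zeros]
    rfl
  rw [← h1]
  refine card_le_card_of_injOn (fun p => horn p.1 {i, p.2}) ?_ ?_
  · rintro ⟨a, k⟩ hp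
    rw [mem_coe, mem_product, mem_erase, mem_zeros, mem_ones] at hp
    obtain ⟨⟨h2, h3⟩, h4⟩ := hp
    simp only at h2 h3 h4
    have hik : i ≠ k := by rintro rfl; rw [hi] at h4; exact absurd h4 (by simp)
    have hak : a ≠ k := by rintro rfl; rw [h3] at h4; exact absurd h4 (by simp)
    rw [mem_coe, mem_filter]
    refine ⟨mem_form.2 (Or.inl ⟨a, {i, k}, card_pair hik, by simp [h2, hak], rfl⟩), ?_, ?_⟩
    · exact holds_horn.2 (Or.inr ⟨i, by simp, hi⟩)
    · refine not_holds_horn.2 ⟨by rw [flip_ne σ h2]; exact h3, fun j hj => ?_⟩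
      rw [mem_insert, mem_singleton] at hj
      rw [mem_ones]
      rcases hj with rfl | rfl
      · rw [flip_self, hi]; rfl
      · rw [flip_ne σ hik.symm]; exact h4
  · rintro ⟨a, k⟩ hp ⟨a', k'⟩ hp' h
    rw [mem_coe, mem_product, mem_erase, mem_zeros, mem_ones] at hp hp'
    simp only at h hp hp'
    obtain ⟨h2, h3⟩ := horn_inj h
    have hik : i ≠ k := by rintro rfl; rw [hi] at hp; exact absurd hp.2 (by simp)
    have hik' : i ≠ k' := by rintro rfl; rw [hi] at hp'; exact absurd hp'.2 (by simp)
    have h4 : k ∈ ({i, k'} : Finset (Fin n)) := h3 ▸ (by simp : k ∈ ({i, k} : Finset (Fin n)))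
    rw [mem_insert, mem_singleton] at h4
    rcases h4 with h4 | h4
    · exact absurd h4.symm hik
    · rw [h2, h4]

/-- flips of true variables make many clauses -/
lemma makes_one (hn : 6 ≤ n) {σ : Assign n} {j : Fin n} (hj : σ j = true) :
    (n - wgt σ) * (wgt σ - 1) ≤ makes (form hn) σ j := by
  classical
  unfold makes
  have h1 : (zeros σ ×ˢ (ones σ).erase j).card = (n - wgt σ) * (wgt σ - 1) := by
    rw [card_product, card_erase_of_mem (mem_ones.2 hj), card_zeros]
    rfl
  rw [← h1]
  refine card_le_card_of_injOn (fun p => horn p.1 {j, p.2}) ?_ ?_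
  · rintro ⟨a, k⟩ hp
    rw [mem_coe, mem_product, mem_erase, mem_zeros, mem_ones] at hp
    obtain ⟨h2, h3, h4⟩ := hp
    simp only at h2 h3 h4
    have haj : a ≠ j := by rintro rfl; rw [hj] at h2; exact absurd h2 (by simp)
    have hak : a ≠ k := by rintro rfl; rw [h4] at h2; exact absurd h2 (by simp)
    rw [mem_coe, mem_filter]
    refine ⟨mem_form.2 (Or.inl ⟨a, {j, k}, card_pair (Ne.symm h3), by simp [haj, hak], rfl⟩), ?_, ?_⟩
    · refine not_holds_horn.2 ⟨h2, fun x hx => ?_⟩
      rw [mem_insert, mem_singleton] at hx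
      rw [mem_ones]
      rcases hx with rfl | rfl
      · exact hj
      · exact h4
    · exact holds_horn.2 (Or.inr ⟨j, by simp, by rw [flip_self, hj]; rfl⟩)
  · rintro ⟨a, k⟩ hp ⟨a', k'⟩ hp' h
    rw [mem_coe, mem_product, mem_erase, mem_zeros, mem_ones] at hp hp'
    simp only at h hp hp'
    obtain ⟨h2, h3⟩ := horn_inj h
    have h4 : k ∈ ({j, k'} : Finset (Fin n)) := h3 ▸ (by simp : k ∈ ({j, k} : Finset (Fin n)))
    rw [mem_insert, mem_singleton] at h4
    rcases h4 with h4 | h4
    · exact absurd h4 hp.2.1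
    · rw [h2, h4]

/-- flips of true variables break few clauses -/
lemma breaks_one (hn : 6 ≤ n) {σ : Assign n} {j : Fin n} (hj : σ j = true) :
    breaks (form hn) σ j ≤ (wgt σ - 1).choose 2 + 1 := by
  classical
  unfold breaks
  have h1 : (powersetCard 2 ((ones σ).erase j)).card = (wgt σ - 1).choose 2 := by
    rw [card_powersetCard, card_erase_of_mem (mem_ones.2 hj)]
    rfl
  have h2 : ((form hn).filter fun C => Holds σ C ∧ ¬ Holds (flipAt σ j) C) ⊆
      (powersetCard 2 ((ones σ).erase j)).image (horn j) ∪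
        {pos (trip hn (if j ∈ trip hn true then true else false))} := by
    intro C hC
    rw [mem_filter] at hC
    obtain ⟨hC, h3, h4⟩ := hC
    rw [mem_union, mem_image, mem_singleton]
    rcases mem_form.1 hC with ⟨a, s, h5, h6, rfl⟩ | ⟨b, rfl⟩
    · left
      obtain ⟨h7, h8⟩ := not_holds_horn.1 h4
      have hjs : j ∉ s := by
        intro h
        have := mem_ones.1 (h8 h)
        rw [flip_self, hj] at this
        exact absurd this (by simp)
      have hso : ∀ x ∈ s, σ x = true := by
        intro x hx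
        have hxj : x ≠ j := by rintro rfl; exact hjs hx
        have := mem_ones.1 (h8 hx)
        rwa [flip_ne σ hxj] at this
      have haj : a = j := by
        by_contra hne
        rw [flip_ne σ hne] at h7
        rcases holds_horn.1 h3 with h9 | ⟨x, hx, h9⟩
        · rw [h7] at h9; exact absurd h9 (by simp)
        · rw [hso x hx] at h9; exact absurd h9 (by simp)
      subst haj
      refine ⟨s, ?_, rfl⟩
      rw [mem_powersetCard]
      refine ⟨fun x hx => mem_erase.2 ⟨?_, mem_ones.2 (hso x hx)⟩, h5⟩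
      rintro rfl
      exact hjs hx
    · right
      have hjb : j ∈ trip hn b := by
        obtain ⟨x, hx, h5⟩ := holds_pos.1 h3
        by_cases hxj : x = j
        · rw [← hxj]; exact hx
        · exact absurd (holds_pos.2 ⟨x, hx, by rw [flip_ne σ hxj]; exact h5⟩) h4
      cases b
      · rw [if_neg]
        intro h
        exact Finset.disjoint_left.1 (trip_disj hn) h hjb
      · rw [if_pos hjb]
  refine (card_le_card h2).trans ((card_union_le _ _).trans ?_)
  rw [card_singleton, ← h1]
  exact Nat.add_le_add_right card_image_le 1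

/-- flips of false variables make few clauses -/
lemma makes_zero (hn : 6 ≤ n) {σ : Assign n} {i : Fin n} (hi : σ i = false) :
    makes (form hn) σ i ≤ (wgt σ).choose 2 + 1 := by
  classical
  unfold makes
  have h1 : (powersetCard 2 (ones σ)).card = (wgt σ).choose 2 := by
    rw [card_powersetCard]
    rfl
  have h2 : ((form hn).filter fun C => ¬ Holds σ C ∧ Holds (flipAt σ i) C) ⊆
      (powersetCard 2 (ones σ)).image (horn i) ∪
        {pos (trip hn (if i ∈ trip hn true then true else false))} := by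
    intro C hC
    rw [mem_filter] at hC
    obtain ⟨hC, h3, h4⟩ := hC
    rw [mem_union, mem_image, mem_singleton]
    rcases mem_form.1 hC with ⟨a, s, h5, h6, rfl⟩ | ⟨b, rfl⟩
    · left
      obtain ⟨h7, h8⟩ := not_holds_horn.1 h3
      have his : i ∉ s := by
        intro h
        have := mem_ones.1 (h8 h)
        rw [hi] at this
        exact absurd this (by simp)
      have hai : a = i := by
        by_contra hne
        rcases holds_horn.1 h4 with h9 | ⟨x, hx, h9⟩
        · rw [flip_ne σ hne, h7] at h9; exact absurd h9 (by simp)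
        · have hxi : x ≠ i := by rintro rfl; exact his hx
          rw [flip_ne σ hxi, mem_ones.1 (h8 hx)] at h9
          exact absurd h9 (by simp)
      subst hai
      exact ⟨s, mem_powersetCard.2 ⟨h8, h5⟩, rfl⟩
    · right
      have hib : i ∈ trip hn b := by
        obtain ⟨x, hx, h5⟩ := holds_pos.1 h4
        by_cases hxi : x = i
        · rw [← hxi]; exact hx
        · rw [flip_ne σ hxi] at h5
          exact absurd (holds_pos.2 ⟨x, hx, h5⟩) h3
      cases b
      · rw [if_neg]
        intro h
        exact Finset.disjoint_left.1 (trip_disj hn) h hib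
      · rw [if_pos hib]
  refine (card_le_card h2).trans ((card_union_le _ _).trans ?_)
  rw [card_singleton, ← h1]
  exact Nat.add_le_add_right card_image_le 1

/-- many clauses are violated -/
lemma viol_card (hn : 6 ≤ n) (σ : Assign n) :
    (n - wgt σ) * (wgt σ).choose 2 ≤ (viol (form hn) σ).card := by
  classical
  unfold viol
  have h1 : (zeros σ ×ˢ powersetCard 2 (ones σ)).card = (n - wgt σ) * (wgt σ).choose 2 := by
    rw [card_product, card_powersetCard, card_zeros]
    rfl
  rw [← h1]
  refine card_le_card_of_injOn (fun p => horn p.1 p.2) ?_ ?_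
  · rintro ⟨a, s⟩ hp
    rw [mem_coe, mem_product, mem_zeros, mem_powersetCard] at hp
    obtain ⟨h2, h3, h4⟩ := hp
    simp only at h2 h3 h4
    rw [mem_coe, mem_filter]
    refine ⟨mem_form.2 (Or.inl ⟨a, s, h4, ?_, rfl⟩), not_holds_horn.2 ⟨h2, h3⟩⟩
    intro h
    rw [mem_ones.1 (h3 h)] at h2
    exact absurd h2 (by simp)
  · rintro ⟨a, s⟩ - ⟨a', s'⟩ - h
    obtain ⟨h2, h3⟩ := horn_inj h
    exact Prod.ext h2 h3

/-- below weight `2n/3` the false variables are worse than the true ones -/
lemma worse (hn : 6 ≤ n) {σ : Assign n} (h1 : 4 ≤ wgt σ) (h2 : 3 * wgt σ < 2 * n) {i j : Fin n}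
    (hi : σ i = false) (hj : σ j = true) : Worse (form hn) σ i j := by
  have a1 := breaks_zero hn hi
  have a2 := breaks_one hn hj
  have a3 := makes_zero hn hi
  have a4 := makes_one hn hj
  obtain ⟨w, hw⟩ : ∃ w, wgt σ = w + 2 := ⟨wgt σ - 2, by omega⟩
  obtain ⟨z, hz⟩ : ∃ z, n = w + 2 + (z + 1) := ⟨n - (w + 2) - 1, by omega⟩
  have e1 : n - wgt σ - 1 = z := by omega
  have e2 : n - wgt σ = z + 1 := by omega
  have e3 : wgt σ - 1 = w + 1 := by omega
  have c1 : 2 * (w + 1).choose 2 = (w + 1) * w := by
    rw [Nat.choose_two_right]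
    have : (w + 1) * (w + 1 - 1) = (w + 1) * w := by simp
    rw [this, Nat.mul_div_cancel']
    rw [mul_comm]
    exact (Nat.even_mul_succ_self w).two_dvd
  have c2 : 2 * (w + 2).choose 2 = (w + 2) * (w + 1) := by
    rw [Nat.choose_two_right]
    have : (w + 2) * (w + 2 - 1) = (w + 2) * (w + 1) := by simp
    rw [this, Nat.mul_div_cancel']
    rw [mul_comm]
    exact (Nat.even_mul_succ_self (w + 1)).two_dvd
  rw [e1, hw] at a1
  rw [e3] at a2
  rw [hw] at a3
  rw [e2, e3] at a4
  have hzw : w + 2 < 2 * (z + 1) := by omega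
  have hw2 : 2 ≤ w := by omega
  constructor
  · have : 2 * ((w + 1).choose 2 + 1) < 2 * (z * (w + 2)) := by
      have : 2 * ((w + 1).choose 2 + 1) = (w + 1) * w + 2 := by omega
      rw [this]
      nlinarith
    omega
  · have : 2 * ((w + 2).choose 2 + 1) < 2 * ((z + 1) * (w + 1)) := by
      have : 2 * ((w + 2).choose 2 + 1) = (w + 2) * (w + 1) + 2 := by omega
      rw [this]
      nlinarith
    omega

end Pool.Agent.V7H96.LS
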