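import Mathlib

/-!
# Score-based local search for 3-SAT: the potential function
-/

set_option autoImplicit false

namespace Pool.Agent.V7H96.LS

open Finset

/-- increments of the potential -/
noncomputable def inc (n k : ℕ) : ℝ := 1 / ((n - 1).choose k : ℝ)

/-- the potential: harmonic for the Ehrenfest walk above `n / 2` -/
noncomputable def pot (n w : ℕ) : ℝ := ∑ k ∈ Ico (n / 2) w, inc n k

lemma inc_nonneg (n k : ℕ) : 0 ≤ inc n k := by
  unfold inc
  positivity

lemma inc_pos {n k : ℕ} (h : k < n) : 0 < inc n k := by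
  unfold inc
  have : 0 < (n - 1).choose k := Nat.choose_pos (by omega)
  positivity

lemma pot_nonneg (n w : ℕ) : 0 ≤ pot n w := sum_nonneg fun _ _ => inc_nonneg _ _

lemma pot_zero {n w : ℕ} (h : w ≤ n / 2) : pot n w = 0 := by
  unfold pot
  rw [Ico_eq_empty (by omega), sum_empty]

lemma pot_succ {n w : ℕ} (h : n / 2 ≤ w) : pot n (w + 1) = pot n w + inc n w := by
  unfold pot
  rw [sum_Ico_succ_top h]

lemma pot_mono {n v w : ℕ} (h : v ≤ w) : pot n v ≤ pot n w := by
  unfold pot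
  exact sum_le_sum_of_subset_of_nonneg (Ico_subset_Ico le_rfl h) fun _ _ _ => inc_nonneg _ _

/-- the harmonic relation -/
lemma inc_rel {n w : ℕ} (h1 : 1 ≤ w) (h2 : w < n) :
    inc n (w - 1) * w = inc n w * ((n : ℝ) - w) := by
  obtain ⟨v, rfl⟩ : ∃ v, w = v + 1 := ⟨w - 1, by omega⟩
  obtain ⟨m, rfl⟩ : ∃ m, n = m + 1 := ⟨n - 1, by omega⟩
  unfold inc
  have e1 : m + 1 - 1 = m := by omega
  have e2 : v + 1 - 1 = v := by omega
  rw [e1, e2]
  have p1 : (0 : ℝ) < (m.choose v : ℝ) := by exact_mod_cast Nat.choose_pos (by omega)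
  have p2 : (0 : ℝ) < (m.choose (v + 1) : ℝ) := by exact_mod_cast Nat.choose_pos (by omega)
  have h3 : (m.choose (v + 1) : ℝ) * ((v : ℝ) + 1) = m.choose v * ((m : ℝ) - v) := by
    have := Nat.choose_succ_right_eq m v
    have h4 : ((m.choose (v + 1) * (v + 1) : ℕ) : ℝ) = ((m.choose v * (m - v) : ℕ) : ℝ) := by
      rw [this]
    push_cast [Nat.cast_sub (show v ≤ m by omega)] at h4
    exact h4
  push_cast
  field_simp
  linarith

/-- one step of the walk, abstract form: up with probability `a`, down with probability `b`,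
`w a ≤ (n - w) b` -/
lemma step_glob {n w : ℕ} {a b : ℝ} (h1 : n / 2 < w) (h2 : w < n)
    (h3 : (w : ℝ) * a ≤ ((n : ℝ) - w) * b) :
    a * pot n (w + 1) + b * pot n (w - 1) ≤ (a + b) * pot n w := by
  have e1 : pot n (w + 1) = pot n w + inc n w := pot_succ (by omega)
  have e2 : pot n w = pot n (w - 1) + inc n (w - 1) := by
    have := pot_succ (n := n) (w := w - 1) (by omega)
    rwa [Nat.sub_add_cancel (by omega)] at this
  have e3 := inc_rel (n := n) (w := w) (by omega) h2
  have hw : (0 : ℝ) < w := by exact_mod_cast (by omega : 0 < w)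
  have hi := inc_nonneg n w
  have h5 : inc n w * (w * a) ≤ inc n w * (((n : ℝ) - w) * b) :=
    mul_le_mul_of_nonneg_left h3 hi
  have h4 : a * inc n w ≤ b * inc n (w - 1) := by
    have h6 : (a * inc n w) * w ≤ (b * inc n (w - 1)) * w := by
      calc (a * inc n w) * w = inc n w * (w * a) := by ring
        _ ≤ inc n w * (((n : ℝ) - w) * b) := h5
        _ = b * (inc n w * ((n : ℝ) - w)) := by ring
        _ = b * (inc n (w - 1) * w) := by rw [e3]
        _ = (b * inc n (w - 1)) * w := by ring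
    exact le_of_mul_le_mul_right h6 hw
  have e4 : pot n (w - 1) = pot n w - inc n (w - 1) := by linarith
  rw [e1, e4]
  nlinarith

/-- a focused step on an implication -/
lemma step_loc {n w : ℕ} {a : ℝ} (h1 : n / 2 < w) (h2 : 3 * w < 2 * n) (h0 : 0 ≤ a)
    (ha : a ≤ 1 / 3) :
    a * pot n (w + 1) + (1 - a) * pot n (w - 1) ≤ pot n w - inc n w / (3 * w) := by
  have e1 : pot n (w + 1) = pot n w + inc n w := pot_succ (by omega)
  have e2 : pot n w = pot n (w - 1) + inc n (w - 1) := by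
    have := pot_succ (n := n) (w := w - 1) (by omega)
    rwa [Nat.sub_add_cancel (by omega)] at this
  have e3 := inc_rel (n := n) (w := w) (by omega) (by omega)
  have hw : (0 : ℝ) < w := by exact_mod_cast (by omega : 0 < w)
  have hi := inc_nonneg n w
  have hi' := inc_nonneg n (w - 1)
  have e4 : pot n (w - 1) = pot n w - inc n (w - 1) := by linarith
  rw [e1, e4]
  have h3 : (3 : ℝ) * w + 1 ≤ 2 * n := by exact_mod_cast h2
  have h4 : a * inc n w - (1 - a) * inc n (w - 1) ≤ 1 / 3 * inc n w - 2 / 3 * inc n (w - 1) := by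
    nlinarith
  have h5 : 1 / 3 * inc n w - 2 / 3 * inc n (w - 1) ≤ - (inc n w / (3 * w)) := by
    have h6 : inc n (w - 1) = inc n w * ((n : ℝ) - w) / w := by
      rw [eq_div_iff hw.ne', e3]
    rw [h6]
    have h7 : 1 / 3 * inc n w - 2 / 3 * (inc n w * ((n : ℝ) - w) / w) + inc n w / (3 * w) =
        inc n w * (3 * w - 2 * n + 1) / (3 * w) := by
      field_simp
      ring
    have h8 : inc n w * (3 * w - 2 * n + 1) / (3 * w) ≤ 0 := by
      apply div_nonpos_of_nonpos_of_nonneg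
      · exact mul_nonpos_of_nonneg_of_nonpos hi (by linarith)
      · positivity
    linarith
  nlinarith

/-- the middle binomial coefficient is large -/
lemma inc_mid {n : ℕ} (hn : 1 ≤ n) : inc n (n / 2) ≤ 2 * n / 2 ^ n := by
  have h1 : (2 : ℕ) ^ (n - 1) ≤ n * (n - 1).choose (n / 2) := by
    have h2 : (n - 1).choose ((n - 1) / 2) = (n - 1).choose (n / 2) := by
      rcases Nat.even_or_odd n with ⟨a, ha⟩ | ⟨a, ha⟩
      · have e1 : (n - 1) / 2 = a - 1 := by omega
        have e2 : n / 2 = a := by omega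
        rw [e1, e2]
        have := Nat.choose_symm_of_eq_add (n := n - 1) (a := a - 1) (b := a) (by omega)
        exact this
      · have e1 : (n - 1) / 2 = n / 2 := by omega
        rw [e1]
    rw [← h2, ← Nat.sum_range_choose]
    calc ∑ m ∈ range (n - 1 + 1), (n - 1).choose m
        ≤ ∑ _m ∈ range (n - 1 + 1), (n - 1).choose ((n - 1) / 2) :=
          sum_le_sum fun i _ => Nat.choose_le_middle i (n - 1)
      _ = n * (n - 1).choose ((n - 1) / 2) := by
          rw [sum_const, card_range, smul_eq_mul, Nat.sub_add_cancel hn]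
  have p : 0 < (n - 1).choose (n / 2) := Nat.choose_pos (by omega)
  have p' : (0 : ℝ) < ((n - 1).choose (n / 2) : ℝ) := by exact_mod_cast p
  unfold inc
  rw [div_le_div_iff₀ p' (by positivity)]
  have h3 : ((2 : ℕ) ^ (n - 1) : ℝ) ≤ n * ((n - 1).choose (n / 2) : ℝ) := by exact_mod_cast h1
  have h4 : (2 : ℝ) ^ n = 2 * 2 ^ (n - 1) := by
    rw [← pow_succ', Nat.sub_add_cancel hn]
  rw [h4]
  push_cast at h3
  nlinarith

/-- binomial coefficients decrease above the middle -/
lemma choose_anti {n k w : ℕ} (h1 : n ≤ 2 * k + 1) (h2 : k ≤ w) :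
    n.choose w ≤ n.choose k := by
  induction w, h2 using Nat.le_induction with
  | base => exact le_rfl
  | succ w hw ih =>
    refine le_trans ?_ ih
    have h3 := Nat.choose_succ_right_eq n w
    have h4 : n.choose (w + 1) * (w + 1) ≤ n.choose w * (w + 1) := by
      rw [h3]
      exact Nat.mul_le_mul_left _ (by omega)
    exact Nat.le_of_mul_le_mul_right h4 (by omega)

/-- the mean of the potential over all assignments -/
lemma pot_mean {n : ℕ} (hn : 1 ≤ n) :
    ∑ w ∈ range (n + 1), (n.choose w : ℝ) * pot n w ≤ 2 * n * (n + 1) := by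
  have key : ∀ w ∈ range (n + 1), (n.choose w : ℝ) * pot n w ≤ 2 * n := by
    intro w hw
    rw [mem_range] at hw
    unfold pot
    rw [mul_sum]
    have : ∀ k ∈ Ico (n / 2) w, (n.choose w : ℝ) * inc n k ≤ 2 := by
      intro k hk
      rw [mem_Ico] at hk
      have hkn : k ≤ n - 1 := by omega
      have p : (0 : ℝ) < ((n - 1).choose k : ℝ) := by exact_mod_cast Nat.choose_pos hkn
      unfold inc
      rw [mul_one_div, div_le_iff₀ p]
      have h1 : n.choose w ≤ n.choose (k + 1) := choose_anti (by omega) (by omega)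
      have h2 : n.choose (k + 1) * (k + 1) = n * (n - 1).choose k := by
        obtain ⟨m, rfl⟩ : ∃ m, n = m + 1 := ⟨n - 1, by omega⟩
        have := Nat.add_one_mul_choose_eq m k
        simpa [mul_comm] using this.symm
      have h3 : n.choose (k + 1) ≤ 2 * (n - 1).choose k := by
        have h4 : n.choose (k + 1) * (k + 1) ≤ (2 * (n - 1).choose k) * (k + 1) := by
          rw [h2]
          calc n * (n - 1).choose k ≤ (2 * (k + 1)) * (n - 1).choose k :=
                Nat.mul_le_mul_right _ (by omega)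
            _ = (2 * (n - 1).choose k) * (k + 1) := by ring
        exact Nat.le_of_mul_le_mul_right h4 (by omega)
      exact_mod_cast h1.trans h3
    calc ∑ k ∈ Ico (n / 2) w, (n.choose w : ℝ) * inc n k ≤ ∑ _k ∈ Ico (n / 2) w, (2 : ℝ) :=
          sum_le_sum this
      _ = ((w - n / 2 : ℕ) : ℝ) * 2 := by rw [sum_const, Nat.card_Ico, nsmul_eq_mul]
      _ ≤ (n : ℝ) * 2 := by
          have : ((w - n / 2 : ℕ) : ℝ) ≤ n := by exact_mod_cast (by omega : w - n / 2 ≤ n)
          linarith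
      _ = 2 * n := by ring
  calc ∑ w ∈ range (n + 1), (n.choose w : ℝ) * pot n w ≤ ∑ _w ∈ range (n + 1), (2 * n : ℝ) :=
        sum_le_sum key
    _ = 2 * n * (n + 1) := by
        rw [sum_const, card_range, nsmul_eq_mul]
        push_cast
        ring

/-- upper bound for the binomial coefficients at two thirds -/
lemma choose_upper (N k : ℕ) : (N.choose k : ℝ) ≤ 3 ^ N / 2 ^ k := by
  rcases Nat.lt_or_ge N k with h | h
  · rw [Nat.choose_eq_zero_of_lt h]
    push_cast
    positivity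
  · have h1 := add_pow (2 / 3 : ℝ) (1 / 3) N
    have h2 : (2 / 3 : ℝ) ^ k * (1 / 3) ^ (N - k) * N.choose k ≤ 1 := by
      have h3 : (2 / 3 : ℝ) ^ k * (1 / 3) ^ (N - k) * N.choose k ≤
          ∑ m ∈ range (N + 1), (2 / 3 : ℝ) ^ m * (1 / 3) ^ (N - m) * N.choose m :=
        single_le_sum (f := fun m => (2 / 3 : ℝ) ^ m * (1 / 3) ^ (N - m) * N.choose m)
          (fun _ _ => by positivity) (mem_range.2 (by omega))
      rw [← h1] at h3
      norm_num at h3 ⊢
      exact h3
    rw [le_div_iff₀ (by positivity)]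
    have h4 : (2 / 3 : ℝ) ^ k * (1 / 3) ^ (N - k) = 2 ^ k / 3 ^ N := by
      rw [div_pow, div_pow, one_pow, div_mul_div_comm, mul_one, ← pow_add,
        Nat.add_sub_cancel' h]
    rw [h4] at h2
    have h5 : (2 : ℝ) ^ k / 3 ^ N * N.choose k = (N.choose k * 2 ^ k) / 3 ^ N := by ring
    rw [h5, div_le_one (by positivity)] at h2
    exact h2

/-- the top value of the potential is large compared with `2^n / (20/19)^n` -/
lemma top_bound {n k : ℕ} (hn : 1 ≤ n) (hk : 2 * n ≤ 3 * k + 3) :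
    ((n - 1).choose k : ℝ) / 2 ^ n ≤ (19 / 20) ^ n := by
  have h1 := choose_upper (n - 1) k
  have h2 : ((n - 1).choose k : ℝ) / 2 ^ n ≤ 3 ^ (n - 1) / 2 ^ k / 2 ^ n := by
    gcongr
  refine h2.trans ?_
  have h0 : (0 : ℝ) ≤ 3 ^ (n - 1) / 2 ^ k / 2 ^ n := by positivity
  refine le_of_pow_le_pow_left₀ (n := 3) (by norm_num) (by positivity) ?_
  have e1 : ((3 : ℝ) ^ (n - 1) / 2 ^ k / 2 ^ n) ^ 3 =
      (27 : ℝ) ^ (n - 1) / (2 ^ (3 * k) * 8 ^ n) := by
    rw [div_div, div_pow, mul_pow, ← pow_mul, ← pow_mul, ← pow_mul]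
    congr 1
    · rw [mul_comm (n - 1) 3, pow_mul]; norm_num
    · rw [mul_comm k 3, mul_comm n 3, pow_mul 2 3 n]; norm_num
  have e2 : (((19 : ℝ) / 20) ^ n) ^ 3 = (6859 / 8000) ^ n := by
    rw [← pow_mul, mul_comm n 3, pow_mul]; norm_num
  rw [e1, e2]
  have h3 : (4 : ℝ) ^ n ≤ 8 * 2 ^ (3 * k) := by
    have : (4 : ℝ) ^ n = 2 ^ (2 * n) := by rw [pow_mul]; norm_num
    rw [this]
    calc (2 : ℝ) ^ (2 * n) ≤ 2 ^ (3 * k + 3) := pow_le_pow_right₀ (by norm_num) hk
      _ = 8 * 2 ^ (3 * k) := by rw [pow_add]; ring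
  have h4 : (27 : ℝ) ^ (n - 1) = 27 ^ n / 27 := by
    obtain ⟨m, rfl⟩ : ∃ m, n = m + 1 := ⟨n - 1, by omega⟩
    rw [Nat.add_sub_cancel, pow_succ]
    field_simp
  rw [h4, div_div, div_le_iff₀ (by positivity)]
  have h5 : (6859 / 8000 : ℝ) ^ n * (27 * (2 ^ (3 * k) * 8 ^ n)) ≥
      (6859 / 8000 : ℝ) ^ n * (27 * (4 ^ n / 8 * 8 ^ n)) := by
    have : (4 : ℝ) ^ n / 8 ≤ 2 ^ (3 * k) := by
      rw [div_le_iff₀ (by norm_num)]; linarith
    gcongr
  refine le_trans ?_ h5
  have h6 : (6859 / 8000 : ℝ) ^ n * (27 * (4 ^ n / 8 * 8 ^ n)) = 27 / 8 * (6859 / 250) ^ n := by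
    have : (6859 / 250 : ℝ) ^ n = (6859 / 8000 : ℝ) ^ n * 4 ^ n * 8 ^ n := by
      rw [← mul_pow, ← mul_pow]; norm_num
    rw [this]; ring
  rw [h6]
  have h7 : (27 : ℝ) ^ n ≤ (6859 / 250) ^ n := pow_le_pow_left₀ (by norm_num) (by norm_num) n
  have h8 : (0 : ℝ) < (6859 / 250) ^ n := by positivity
  linarith

end Pool.Agent.V7H96.LS
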